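import Pool.Agent.J4.H26.Ew.All4
import Pool.Agent.N993.CP.OddOrd
import Pool.Agent.J4.H6.OC.Conv

/-!
Tate characters with few entries in characteristic `p`, where the order of `p` modulo the degree is
odd.
-/

set_option autoImplicit false
set_option linter.unusedSectionVars false

namespace Pool.Agent.J4.H26.Et

open Finset Pool.Agent.H916R2 Pool.Agent.H916T Pool.Agent.H916U Pool.Agent.H916Z Pool.Agent.H916Q
  Pool.Agent.H916Y Pool.Agent.N992 Pool.Agent.Y2.Cv Pool.Agent.N993.CP Pool.Agent.J4.H26.Ew
  Pool.Agent.J4.H6.OC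

/-- The known Tate characters of degree `M` in characteristic `p`: those with four entries, the unions
of two curve characters, the standard characters and, only if `p = 2`, the Hodge characters which
are, multiplied by two, generated in characteristic zero. -/
def TateKnown (p M : ℕ) (t : Multiset (ZMod M)) : Prop :=
  SurfaceTate p M t ∨ CurveProductTate p M t ∨ (∃ q : ℕ, q.Prime ∧ q ∣ M ∧ Standard q M t) ∨
    (p = 2 ∧ IsHodge M t ∧ H916R2.Generated (2 * M) (SurfaceOrCurveProduct (2 * M))
      (t.map fun a : ZMod M => ((2 * a.val : ℕ) : ZMod (2 * M))))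

variable {p m : ℕ}

/-- the norm of a Tate character is a Hodge character -/
lemma hodge_nrm [NeZero m] (hpm : p.Coprime m) {s : Multiset (ZMod m)} (h0 : (0 : ZMod m) ∉ s)
    (hev : Even (Multiset.card s)) (hsum : (nrm ((p : ZMod m) ^ 1) (orderOf (p : ZMod m)) s).sum = 0)
    (hW : ∀ t : (ZMod m)ˣ, (s.map fun a => W p ((t : ZMod m) * a)).sum = 0) :
    IsHodge m (nrm ((p : ZMod m) ^ 1) (orderOf (p : ZMod m)) s) := by
  set f := orderOf (p : ZMod m) with hf
  have hf1 : orderOf (p : ZMod m) = 1 * f := by rw [one_mul]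
  set s' := nrm ((p : ZMod m) ^ 1) f s with hs'
  have h0' : (0 : ZMod m) ∉ s' := zero_notMem_nrm hpm 1 f h0
  have hcard : Multiset.card s' = f * Multiset.card s := card_nrm _ _ _
  refine ⟨h0', ?_, hsum, ?_⟩
  · rw [hcard]; exact hev.mul_left f
  · intro t
    have h1 := nrm_WW hf1 (Nat.coprime_one_left f) s (t : ZMod m)
    rw [hW t] at h1
    have h2 : (s'.map fun a => N993.CP.WW ((p : ZMod m) ^ f) 1 ((t : ZMod m) * a)) =
        s'.map fun a => saw ((t : ZMod m) * a) := by
      refine Multiset.map_congr rfl fun a _ => ?_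
      unfold N993.CP.WW
      rw [sum_range_one, pow_zero, one_mul]
    rw [← hs', h2, saw_sum_eq s' h0' t] at h1
    have h3 := sub_eq_zero.mp h1
    exact_mod_cast h3

/-- the negative of a Hodge character with few entries, in characteristic `p ≠ 2` -/
lemma gen_neg {E M k : ℕ} [NeZero E] [NeZero M] (hkM : k * E = M) (hpM : p.Coprime M)
    {x : Multiset (ZMod E)} (hx : H916R2.Generated E (SurfaceOrCurveProduct E) x) :
    H916T.Generated M (TateKnown p M) (x.map (iota k : ZMod E → ZMod M)) := by
  have h1 := gen_lift (k := k) (m0 := E) (m := M) hkM (B := SurfaceOrCurveProduct E)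
    (B' := SurfaceOrCurveProduct M) (by
      intro s hs
      rcases hs with ⟨h1, h2⟩ | h1
      · exact Or.inl ⟨h1.iota hkM, by rw [Multiset.card_map]; exact h2⟩
      · exact Or.inr (h1.lift hkM)) hx
  refine conv hpM ?_ (fun s hs => Or.inl hs)
    (fun r s hr hrM hs => Or.inr (Or.inr (Or.inl ⟨r, hr, hrM, hs⟩))) h1
  rintro s (⟨h2, h3⟩ | ⟨h2, s₁, s₂, h4, h5, h6⟩)
  · exact Or.inl ⟨hodge_isTate hpM h2, h3⟩
  · exact Or.inr (Or.inl ⟨hodge_isTate hpM h2, s₁, s₂, h4, h5, h6⟩)

open scoped Classical in
/-- the parity criterion for the union with a Hodge character which is known -/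
lemma key {E k0 : ℕ} [NeZero m] [NeZero E] (hp : p.Prime) (hkE : k0 * m = E) (hpE : p.Coprime E)
    {s x : Multiset (ZMod m)} (hs : IsTate p m s) (hx : IsTate p m x) (hne : s ≠ 0)
    (hpar : ∀ S : Finset ℕ, Even ((s + x).countP (Supp S))) :
    ∃ N : ℕ, 0 < N ∧ p.Coprime N ∧ ∀ M : ℕ, N * E = M →
      H916T.Generated M (ZBase p M) (((s + x).map (iota k0 : ZMod m → ZMod E)).map
        (iota N : ZMod E → ZMod M)) := by
  have hpm : p.Coprime m := Nat.Coprime.coprime_dvd_right (Dvd.intro_left k0 hkE) hpE
  have hT : IsTate p E ((s + x).map (iota k0 : ZMod m → ZMod E)) :=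
    isTate_iota hkE hpE (isTate_add hpm hs hx)
  have hne' : (s + x).map (iota k0 : ZMod m → ZMod E) ≠ 0 := by
    intro h
    have h2 := congrArg Multiset.card h
    rw [Multiset.card_map, Multiset.card_add, Multiset.card_zero] at h2
    exact hne (Multiset.card_eq_zero.mp (by omega))
  have hpar' : ∀ a : ZMod E, Even (((s + x).map (iota k0 : ZMod m → ZMod E)).countP
      (fun b => Relation.EqvGen (Link p) a b)) := by
    refine link_parity2 hT.1 hT.2.1 (fun S => S.Nonempty ∧ Dead p S) ?_ ?_
    · rintro S ⟨hSne, hSD⟩ a ha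
      exact dead_elem S hSne hSD a ha
    · intro S _ _ _
      rw [H916Y.countP_iota hkE]
      exact hpar S
  exact parity_main hp (NeZero.pos E) hpE hT hne' hpar'

/-- the negative of the lift -/
lemma map_neg_iota {k E M : ℕ} [NeZero E] (h : k * E = M) (x : Multiset (ZMod E)) :
    (x.map (iota k : ZMod E → ZMod M)).map Neg.neg =
      (x.map Neg.neg).map (iota k : ZMod E → ZMod M) := by
  rw [Multiset.map_map, Multiset.map_map]
  refine Multiset.map_congr rfl fun a _ => ?_
  simp only [Function.comp_apply]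
  rw [iota_neg h]

open scoped Classical in
/-- **The passage from the norm to the character.** `x` has the parities of `s` and is known. -/
theorem transfer [NeZero m] (hp : p.Prime) (hpm : p.Coprime m) {s x : Multiset (ZMod m)}
    (hs : IsTate p m s) (hne : s ≠ 0) (hx : IsHodge m x)
    (hpar : ∀ S : Finset ℕ, Even ((s + x).countP (Supp S)))
    (hG : H916R2.Generated (evenDegree m) (SurfaceOrCurveProduct (evenDegree m))
      ((x.map Neg.neg).map (raise m))) :
    ∃ N : ℕ, 0 < N ∧ p.Coprime N ∧ ∀ M : ℕ, N * m = M →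
      H916T.Generated M (TateKnown p M) (s.map (iota N : ZMod m → ZMod M)) := by
  have hm : 0 < m := NeZero.pos m
  have hxT : IsTate p m x := hodge_isTate hpm hx
  -- the degree `evenDegree m`
  obtain ⟨k0, E, hE, hk0, hkE, hraise⟩ : ∃ k0 E : ℕ, evenDegree m = E ∧ (k0 = 1 ∨ k0 = 2 ∧ ¬ 2 ∣ m) ∧
      k0 * m = E ∧ ∀ y : Multiset (ZMod m), H916R2.Generated (evenDegree m)
        (SurfaceOrCurveProduct (evenDegree m)) (y.map (raise m)) →
        H916R2.Generated E (SurfaceOrCurveProduct E) (y.map (iota k0 : ZMod m → ZMod E)) := by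
    by_cases h2 : 2 ∣ m
    · have e : evenDegree m = m := by unfold evenDegree; rw [if_pos h2]
      refine ⟨1, _, rfl, Or.inl rfl, by rw [e, one_mul], fun y hy => ?_⟩
      have e2 : (raise m : ZMod m → ZMod (evenDegree m)) = iota 1 := by
        funext a
        unfold raise iota
        have e3 : evenDegree m / m = 1 := by rw [e, Nat.div_self hm]
        rw [e3]
      rw [← e2]; exact hy
    · have e : evenDegree m = 2 * m := by unfold evenDegree; rw [if_neg h2]
      refine ⟨2, _, rfl, Or.inr ⟨rfl, h2⟩, e.symm, fun y hy => ?_⟩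
      have e2 : (raise m : ZMod m → ZMod (evenDegree m)) = iota 2 := by
        funext a
        unfold raise iota
        have e3 : evenDegree m / m = 2 := by rw [e, Nat.mul_div_cancel _ hm]
        rw [e3]
      rw [← e2]; exact hy
  have hG' := hraise _ hG
  have hk0pos : 0 < k0 := by rcases hk0 with h | ⟨h, _⟩ <;> omega
  have hE0 : 0 < E := by rw [← hkE]; exact Nat.mul_pos hk0pos hm
  have hzE : NeZero E := ⟨hE0.ne'⟩
  by_cases hp2 : p = 2
  · -- characteristic two
    subst hp2
    have h2m : ¬ 2 ∣ m := by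
      intro h
      have h3 := Nat.dvd_gcd (dvd_refl 2) h
      rw [hpm] at h3
      omega
    have hk2 : k0 = 2 := by
      have e : evenDegree m = 2 * m := by unfold evenDegree; rw [if_neg h2m]
      have h3 : k0 * m = 2 * m := by rw [hkE, ← hE, e]
      exact Nat.eq_of_mul_eq_mul_right hm h3
    subst hk2
    obtain ⟨N, hN, hpN, H⟩ := key (k0 := 1) (E := m) hp (one_mul m) hpm hs hxT hne hpar
    refine ⟨N, hN, hpN, fun M hM => ?_⟩
    have h2 := H M hM
    have hM0 : 0 < M := by rw [← hM]; exact Nat.mul_pos hN hm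
    have hzM : NeZero M := ⟨hM0.ne'⟩
    have hz2M : NeZero (2 * M) := ⟨by omega⟩
    have hpM : (2 : ℕ).Coprime M := by rw [← hM]; exact Nat.Coprime.mul_right hpN hpm
    have hone : (s + x).map (iota 1 : ZMod m → ZMod m) = s + x := by
      conv_rhs => rw [← Multiset.map_id (s + x)]
      apply Multiset.map_congr rfl
      intro a _
      unfold iota
      rw [one_mul, ZMod.natCast_zmod_val]
      rfl
    rw [hone, Multiset.map_add] at h2
    have hbase : TateKnown 2 M ((x.map (iota N : ZMod m → ZMod M)).map Neg.neg) := by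
      right; right; right
      refine ⟨rfl, (hx.iota hM).neg, ?_⟩
      have h3 := gen_lift (k := N) (m0 := E) (m := 2 * M) (by rw [← hkE, ← hM]; ring)
        (B := SurfaceOrCurveProduct E) (B' := SurfaceOrCurveProduct (2 * M)) (by
          intro s hs
          rcases hs with ⟨h1, h2⟩ | h1
          · exact Or.inl ⟨h1.iota (by rw [← hkE, ← hM]; ring), by rw [Multiset.card_map]; exact h2⟩
          · exact Or.inr (h1.lift (by rw [← hkE, ← hM]; ring))) hG'
      have h4 : ((x.map (iota N : ZMod m → ZMod M)).map Neg.neg).map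
          (fun a : ZMod M => ((2 * a.val : ℕ) : ZMod (2 * M))) =
          ((x.map Neg.neg).map (iota 2 : ZMod m → ZMod E)).map
            (iota N : ZMod E → ZMod (2 * M)) := by
        rw [map_neg_iota hM]
        generalize x.map Neg.neg = y
        rw [Multiset.map_map, Multiset.map_map]
        refine Multiset.map_congr rfl fun a _ => ?_
        simp only [Function.comp_apply]
        have e1 : (iota N (iota 2 a : ZMod E) : ZMod (2 * M)) = iota (N * 2) a :=
          iota_comp (by rw [← hkE, ← hM]; ring) a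
        have e2 : (iota 2 (iota N a : ZMod M) : ZMod (2 * M)) = iota (2 * N) a :=
          iota_comp rfl a
        rw [e1, mul_comm N 2, ← e2]
        rfl
      rw [h4]
      exact h3
    refine cancel_multi (x.map (iota N : ZMod m → ZMod M)) _ ?_
    rw [← add_assoc]
    refine H916T.Generated.join _ _ (generated_mono ?_ h2) (H916T.Generated.ofBase _ hbase)
    rintro t (ht | ht)
    · exact Or.inl ht
    · exact Or.inr (Or.inr (Or.inl ht))
  · -- odd characteristic
    have hpk0 : p.Coprime k0 := by
      rcases hk0 with rfl | ⟨rfl, _⟩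
      · exact Nat.coprime_one_right p
      · exact (Nat.coprime_primes hp Nat.prime_two).mpr hp2
    have hpE : p.Coprime E := by rw [← hkE]; exact Nat.Coprime.mul_right hpk0 hpm
    obtain ⟨N, hN, hpN, H⟩ := key hp hkE hpE hs hxT hne hpar
    refine ⟨N * k0, Nat.mul_pos hN hk0pos, Nat.Coprime.mul_right hpN hpk0, fun M hM => ?_⟩
    have hM' : N * E = M := by rw [← hM, ← hkE]; ring
    have h2 := H M hM'
    have hM0 : 0 < M := by rw [← hM']; exact Nat.mul_pos hN hE0
    have hzM : NeZero M := ⟨hM0.ne'⟩
    have hpM : p.Coprime M := by rw [← hM']; exact Nat.Coprime.mul_right hpN hpE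
    have h3 := gen_neg hM' hpM hG'
    rw [Multiset.map_add, Multiset.map_add] at h2
    have e1 : (s.map (iota k0 : ZMod m → ZMod E)).map (iota N : ZMod E → ZMod M) =
        s.map (iota (N * k0) : ZMod m → ZMod M) := by
      rw [Multiset.map_map]
      exact Multiset.map_congr rfl fun a _ => iota_comp hM' a
    have e2 : ((x.map Neg.neg).map (iota k0 : ZMod m → ZMod E)).map (iota N : ZMod E → ZMod M) =
        ((x.map (iota k0 : ZMod m → ZMod E)).map (iota N : ZMod E → ZMod M)).map Neg.neg := by
      rw [map_neg_iota hM', map_neg_iota hkE]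
    rw [e1] at h2
    rw [e2] at h3
    refine cancel_multi ((x.map (iota k0 : ZMod m → ZMod E)).map (iota N : ZMod E → ZMod M)) _ ?_
    rw [← add_assoc]
    refine H916T.Generated.join _ _ (generated_mono ?_ h2) h3
    rintro t (ht | ht)
    · exact Or.inl ht
    · exact Or.inr (Or.inr (Or.inl ht))

open scoped Classical in
/-- **Tate characters with few entries, odd order.** -/
theorem odd_order {K : ℕ} (hp : p.Prime) (hm : m ≠ 0) (hpm : p.Coprime m)
    (hodd : Odd (orderOf (p : ZMod m))) (hK : PairsKnown (K * orderOf (p : ZMod m)) m)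
    {s : Multiset (ZMod m)} (hs : IsTate p m s) (hne : s ≠ 0) (hcard : Multiset.card s ≤ K) :
    ∃ N : ℕ, 0 < N ∧ p.Coprime N ∧ ∀ M : ℕ, N * m = M →
      H916T.Generated M (TateKnown p M) (s.map (iota N : ZMod m → ZMod M)) := by
  have hz : NeZero m := ⟨hm⟩
  set f := orderOf (p : ZMod m) with hf
  set s' := nrm ((p : ZMod m) ^ 1) f s with hs'
  have hH : IsHodge m s' := hodge_nrm hpm hs.1 hs.2.1 (sum_nrm_zero _ _ hs.2.2.1)
    (fun t => hs.W_sum hpm t)
  have hc : Multiset.card s' = f * Multiset.card s := card_nrm _ _ _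
  have hfpos : 0 < f := hodd.pos
  have hne' : s'.map Neg.neg ≠ 0 := by
    intro h
    have h2 := congrArg Multiset.card h
    rw [Multiset.card_map, hc, Multiset.card_zero] at h2
    rcases Nat.mul_eq_zero.mp h2 with h3 | h3
    · omega
    · exact hne (Multiset.card_eq_zero.mp h3)
  refine transfer hp hpm hs hne hH ?_ ?_
  · intro S
    rw [Multiset.countP_add, hs', countP_nrm hpm]
    have h1 : Multiset.countP (Supp S) s + f * Multiset.countP (Supp S) s =
        (1 + f) * Multiset.countP (Supp S) s := by ring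
    rw [h1]
    exact (odd_one.add_odd hodd).mul_right _
  · refine all hm hK _ hH.neg hne' ?_
    rw [Multiset.card_map, hc, mul_comm]
    exact Nat.mul_le_mul_right f hcard

end Pool.Agent.J4.H26.Et
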